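import Pool.Agent.K4H56.JD.Fin

/-!
# MP_a60a76_nt: the Frey-Mazur conjecture on an explicit set of invariants of density one

For `j = a / b` in lowest terms let `H(j) = max (|a|, b)`, and let `N(j)` be the product of the primes
`q ≥ 5` such that `j` has at `q` a zero of order prime to `3`, or `j - 1728` has a zero of odd order, or
`j` has a pole of order at most `12`. Let `J_D` be the set of the rational numbers `j` with
`N(j) > 2000 (D + log H(j)) H(j) ^ 2`.

**Theorem.** (1) Two elliptic curves over `ℚ` with invariants in `J_1` which are `p`-congruent for some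
prime `p ≥ 13` are isomorphic. More generally let `K` be a number field of degree at most `D`, prime to
`6`, and `E`, `E'` elliptic curves over `K` with rational invariants `j ∈ J_D` and `j'`, where
`j' ∈ J_D` or `H(j') ≤ H(j)`. If `E` and `E'` are `p`-congruent over `K` for a prime `p ≥ 13` larger than
`[K : ℚ]` then they are isomorphic over `K` (so twists are not excepted).

(2) All but at most `27000 (D + log X) ^ (1 / 12) X ^ (23 / 12)` of the rational numbers of height at most
`X` are in `J_D`; their total number is asymptotic to `(12 / π ^ 2) X ^ 2`.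

Proof. Let `E` and `E'` be `p`-congruent, `q ≥ 5` a prime in the product `N(j)`, and `v` a place above
`q` with a ramification index prime to `6`.
* If `j` has a pole at `q` then so has `j'`: theorem `Y673.FM.loc` of helper673.
* Otherwise `E` has potentially good reduction at `v`, and the inertia group acts on a model with good
  reduction through a character of order divisible by `3` or by `4`. If `E'` has potentially good
  reduction as well and `v` is not above `p`, the inertia elements acting trivially on `E[p]` and on
  `E'[p]` are the same, and as an automorphism of an elliptic curve fixing a point of order `p` is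
  trivial, the two characters have the same kernel. For `v ∣ p`, `p > 144 [K : ℚ] + 1`, one compares the
  action on a formal group or on an etale quotient (files `Loc3`, `Loc4`). If `E'` has potentially
  multiplicative reduction and `v ∤ p`, the square of each inertia element fixes a point of order `p` of
  `E'` (a point on the identity component: there are more than `2 p` torsion points and less than `p`
  components carry them), so it acts trivially on the reduction of `E`, contradiction. The case
  `q = p`, `p ≤ 144 [K : ℚ] + 1` or `p ^ p ∣ b'` is left as an exception.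
* So `j' = a' / b'` is congruent to `j` modulo `q`: `q ∣ a' b - a b'`. If `j ≠ j'` this gives
  `N(j) ≤ 290 (n + log H(j')) H(j) H(j')`, `n = [K : ℚ]`, which contradicts the definition of `J_D` for the
  curve with the larger height.
* If `j = j' ∈ J_D` then `j` has a pole of order at most `12`, so the Galois group of `E[p]` contains an
  element of order `p`, and a nontrivial quadratic twist of `E` is not `p`-congruent to `E`.
* `N(j)` is at least the product of the primes `q ≥ 5` which divide `a b (a - 1728 b)` exactly once, and
  few pairs `a`, `b` have a value `a`, `b`, `a - 1728 b` with a large square divisor.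
-/

set_option autoImplicit false

open WeierstrassCurve

namespace Pool.Agent.Results.MP_a60a76_nt.DensityOneInvariants

section
variable {K : Type} [Field K]

/-- The curve `y² = x³ + Ax + B` over the field `K`. -/
def curve (A B : K) : WeierstrassCurve K := ⟨0, 0, 0, A, B⟩

/-- Its `j`-invariant. -/
noncomputable def invariant (A B : K) : K := 1728 * (4 * A ^ 3) / (4 * A ^ 3 + 27 * B ^ 2)

open scoped Classical in
/-- The group of its points over the algebraic closure of `K`. -/
abbrev Points (A B : K) : Type := ((curve A B).baseChange (AlgebraicClosure K)).toAffine.Point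

open scoped Classical in
/-- The action of an automorphism `σ` of the algebraic closure on the points. -/
noncomputable def galois (A B : K) (σ : AlgebraicClosure K ≃ₐ[K] AlgebraicClosure K) :
    Points A B →+ Points A B :=
  WeierstrassCurve.Affine.Point.map (σ : AlgebraicClosure K →ₐ[K] AlgebraicClosure K)

open scoped Classical in
/-- The curves `y² = x³ + Ax + B` and `y² = x³ + A'x + B'` are `p`-congruent over `K`: some map between
the groups of points restricts to a bijective additive map between the groups of points killed by `p`
which commutes with the Galois group. -/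
def Congruent (p : ℕ) (A B A' B' : K) : Prop :=
  ∃ f : Points A B → Points A' B', (∀ P Q, p • P = 0 → p • Q = 0 → f (P + Q) = f P + f Q) ∧
    Set.BijOn f {P | p • P = 0} {Q | p • Q = 0} ∧
    ∀ (σ : AlgebraicClosure K ≃ₐ[K] AlgebraicClosure K) (P : Points A B), p • P = 0 →
      f (galois A B σ P) = galois A' B' σ (f P)

/-- The curves are isomorphic over `K`. -/
def Isomorphic (A B A' B' : K) : Prop := ∃ c : K, c ≠ 0 ∧ A' = c ^ 4 * A ∧ B' = c ^ 6 * B

end

/-- The height of `j = a / b`, in lowest terms: the maximum of `|a|` and `b`. -/
def height (j : ℚ) : ℕ := max j.num.natAbs j.den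

/-- The prime `q ≥ 5` is essential for `j`: `j` has at `q` a zero of order prime to `3`, or `j - 1728` has
a zero of odd order, or `j` has a pole of order at most `12`. -/
def Essential (j : ℚ) (q : ℕ) : Prop :=
  q.Prime ∧ 5 ≤ q ∧ ((0 < padicValRat q j ∧ ¬ (3 : ℤ) ∣ padicValRat q j) ∨
    (0 < padicValRat q (j - 1728) ∧ ¬ (2 : ℤ) ∣ padicValRat q (j - 1728)) ∨
    (-12 ≤ padicValRat q j ∧ padicValRat q j < 0))

open scoped Classical in
/-- The product of the essential primes of `j = a / b`; all of them divide `a b (a - 1728 b)`. -/
noncomputable def N (j : ℚ) : ℕ :=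
  ∏ q ∈ (j.num * j.den * (j.num - 1728 * j.den)).natAbs.primeFactors.filter (Essential j), q

/-- The set `J_D`. -/
def J (D : ℕ) : Set ℚ :=
  {j | 2000 * ((D : ℝ) + Real.log (height j)) * (height j : ℝ) ^ 2 < N j}

/-- **Frey-Mazur for invariants in a set of density one.** Elliptic curves `E`, `E'` over a number
field `K` of degree at most `D` and prime to `6`, with rational invariants `j ∈ J_D` and `j'`, where
`j' ∈ J_D` or `H(j') ≤ H(j)`, which are `p`-congruent for a prime `p ≥ 13` larger than `[K : ℚ]`, are
isomorphic; and at most `27000 (D + log X) ^ (1 / 12) X ^ (23 / 12)` rational numbers of height at most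
`X` are not in `J_D`. -/
theorem result :
    (∀ (D : ℕ) (K : Type) [Field K] [NumberField K] (p : ℕ) (A B A' B' : K) (j j' : ℚ),
      Module.finrank ℚ K ≤ D → (Module.finrank ℚ K).Coprime 6 →
      p.Prime → 13 ≤ p → Module.finrank ℚ K < p →
      4 * A ^ 3 + 27 * B ^ 2 ≠ 0 → 4 * A' ^ 3 + 27 * B' ^ 2 ≠ 0 →
      invariant A B = (j : K) → invariant A' B' = (j' : K) →
      j ∈ J D → (j' ∈ J D ∨ height j' ≤ height j) →
      Congruent p A B A' B' → Isomorphic A B A' B') ∧
    ∀ D X : ℕ, 1 ≤ D → 1 ≤ X →
      (({j : ℚ | height j ≤ X ∧ j ∉ J D}.ncard : ℕ) : ℝ) ≤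
        27000 * ((D : ℝ) + Real.log X) ^ (1 / 12 : ℝ) * (X : ℝ) ^ (23 / 12 : ℝ) := by
  have hinv : ∀ {K : Type} [Field K] (A B : K), Pool.Agent.Y673.Loc.jv A B = invariant A B := by
    intro K _ A B
    unfold Pool.Agent.Y673.Loc.jv invariant
    ring
  refine ⟨?_, ?_⟩
  · intro D K _ _ p A B A' B' j j' hD h6 hp h13 hn hd hd' hj hj' hJ hJ' ⟨f, h1, h2, h3⟩
    have hP : Pool.Agent.K4H56.JD.Pair K p A B A' B' j j' :=
      ⟨hd, hd', by rw [hinv, hj], by rw [hinv, hj'], hp, h13, hn, ⟨f, h1, h2, h3⟩⟩
    rcases hJ' with hJ' | hJ'
    · exact Pool.Agent.K4H56.JD.iso2 hP h6 hD hJ hJ'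
    · exact Pool.Agent.K4H56.JD.iso1 hP h6 (Pool.Agent.K4H56.JD.Gd.mono hJ hD) hJ'
  · intro D X hD hX
    exact Pool.Agent.K4H56.JD.count_Gd hD hX

end Pool.Agent.Results.MP_a60a76_nt.DensityOneInvariants
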