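import Pool.Agent.K4H56.IF.Main

/-!
# MP_a60a76_nt: two one-parameter families at integral parameters have only finitely many congruences,
# all primes `p ≥ 5` and all number fields of bounded degree at once

Let `j = F / G` and `j' = F' / G'` be rational functions of `t` over `ℚ` (one of them may be constant). A
complex number `π` at which both are finite is called a *cubic point* if neither function is zero and
exactly one of the orders of `j` and `j'` at `π` is divisible by `3`, and a *quadratic point* if neither
`j - 1728` nor `j' - 1728` is zero and exactly one of the orders of these functions at `π` is even.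

**Theorem.** Suppose that there are two cubic points, or a cubic and a different quadratic point, or three
quadratic points. Let `D` and `N` be positive integers. For all but finitely many rational numbers `t`
whose denominator is composed of primes dividing `N` (in particular for all but finitely many integers
`t`) the following holds: for EVERY prime `p ≥ 5`, EVERY number field `L` of degree at most `D` and prime
to `6` (only prime to `3` if there are two cubic points, only odd if there are three quadratic points) and
ALL elliptic curves `E`, `E'` over `L` with invariants `j(t)`, `j'(t)`, the curves `E` and `E'` are not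
`p`-congruent over `L`.

Examples: `j = t` and `j' = t + h`, `h ≠ 0` a rational number (cubic points `0` and `-h`); `j = t` and `j'`
any constant different from `0` and `1728` (cubic point `0`, quadratic point `1728`); more generally
`j` any nonconstant polynomial and `j'` such a constant (by the inequality of Mason and Stothers). The
conjecture concerns `L = ℚ`, `p > 17`.

Proof. Let `π` be a cubic point, `v` a place of `ℚ(π)` outside a finite set with `v(t - π) > 0`, `q` the
prime below `v`. Then `v(t - π) = v(q) m`, and the orders of `j(t)` and `j'(t)` at `q` are `e m` and `e' m`,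
where `e`, `e'` are the orders of `j`, `j'` at `π`. Choose a place `w` of `L` above `q` with a ramification
index prime to `3`. Both curves have potentially good reduction at `w`, and the inertia group acts on
their reductions through cyclic groups; if the curves are `p`-congruent these actions have the same
kernel, also for `w ∣ p` if `p > 144 [L : ℚ] + 1` (helper files `K4H56/JD/Loc1-Loc4`). So `3 ∣ e m` if and only if
`3 ∣ e' m`, and `3 ∣ m`. In the same way `v(t - π)` is even if `π` is a quadratic point.

So `t - π` is up to finitely many factors a cube (square) in `ℚ(π)`, by the finiteness of the class group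
and the theorem on units. In a number field `M` all `t - π` in question are cubes or squares. If
`t - π = x³`, `t - ρ = y³` the numbers `x - y`, `x - ζ y`, `x - ζ² y` are units outside a finite set of
places, with a linear relation; if `t - π`, `t - ρ`, `t - σ` are squares of `x`, `y`, `z`, then
`(x ± y) / (x - z)` are solutions of a unit equation and determine `t`; and if `t - π = x³` and `t - ρ = z²`,
then `x - γ`, `x - ζ γ`, `x - ζ² γ`, `γ³ = ρ - π`, have even orders, which is the case of three squares. The
unit equation over number fields is `Pool.Agent.Y741.unit_off` of helper741.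
-/

set_option autoImplicit false

open Polynomial WeierstrassCurve

namespace Pool.Agent.Results.MP_a60a76_nt.IntegralFamilies

section
variable {K : Type} [Field K]

/-- The curve `y² = x³ + Ax + B` over the field `K`. -/
def curve (A B : K) : WeierstrassCurve K := ⟨0, 0, 0, A, B⟩

/-- Its `j`-invariant. -/
noncomputable def invariant (A B : K) : K := 1728 * (4 * A ^ 3) / (4 * A ^ 3 + 27 * B ^ 2)

open scoped Classical in
/-- The group of its points over the algebraic closure of `K`. -/
abbrev Points (A B : K) : Type := ((curve A B).baseChange (AlgebraicClosure K)).toAffine.Point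

open scoped Classical in
/-- The action of an automorphism `σ` of the algebraic closure on the points. -/
noncomputable def galois (A B : K) (σ : AlgebraicClosure K ≃ₐ[K] AlgebraicClosure K) :
    Points A B →+ Points A B :=
  WeierstrassCurve.Affine.Point.map (σ : AlgebraicClosure K →ₐ[K] AlgebraicClosure K)

open scoped Classical in
/-- The curves `y² = x³ + Ax + B` and `y² = x³ + A'x + B'` are `p`-congruent over `K`: some map between
the groups of points restricts to a bijective additive map between the groups of points killed by `p`
which commutes with the Galois group. -/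
def Congruent (p : ℕ) (A B A' B' : K) : Prop :=
  ∃ f : Points A B → Points A' B', (∀ P Q, p • P = 0 → p • Q = 0 → f (P + Q) = f P + f Q) ∧
    Set.BijOn f {P | p • P = 0} {Q | p • Q = 0} ∧
    ∀ (σ : AlgebraicClosure K ≃ₐ[K] AlgebraicClosure K) (P : Points A B), p • P = 0 →
      f (galois A B σ P) = galois A' B' σ (f P)

end

/-- The order of vanishing of the polynomial `P` at the complex number `π`. -/
noncomputable def order (P : ℚ[X]) (π : ℂ) : ℕ := (P.map (algebraMap ℚ ℂ)).rootMultiplicity π

/-- `π` is a cubic point of `j = F / G` and `j' = F' / G'`: both functions are finite at `π` and not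
identically zero, and exactly one of their orders at `π` is divisible by `3`. -/
def CubicPoint (F G F' G' : ℚ[X]) (π : ℂ) : Prop :=
  aeval π G ≠ 0 ∧ aeval π G' ≠ 0 ∧ F ≠ 0 ∧ F' ≠ 0 ∧ ¬ (3 ∣ order F π ↔ 3 ∣ order F' π)

/-- `π` is a quadratic point: both functions are finite at `π` and not identically `1728`, and exactly
one of the orders of `j - 1728` and `j' - 1728` at `π` is even. -/
def QuadraticPoint (F G F' G' : ℚ[X]) (π : ℂ) : Prop :=
  aeval π G ≠ 0 ∧ aeval π G' ≠ 0 ∧ F - 1728 * G ≠ 0 ∧ F' - 1728 * G' ≠ 0 ∧
    ¬ (2 ∣ order (F - 1728 * G) π ↔ 2 ∣ order (F' - 1728 * G') π)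

/-- There are two cubic points and `n` is prime to `3`, or there are a cubic point and a different
quadratic point and `n` is prime to `6`, or there are three quadratic points and `n` is odd. -/
def EnoughPoints (F G F' G' : ℚ[X]) (n : ℕ) : Prop :=
  (¬ 3 ∣ n ∧ ∃ π ρ : ℂ, π ≠ ρ ∧ CubicPoint F G F' G' π ∧ CubicPoint F G F' G' ρ) ∨
  (n.Coprime 6 ∧ ∃ π ρ : ℂ, π ≠ ρ ∧ CubicPoint F G F' G' π ∧ QuadraticPoint F G F' G' ρ) ∨
  (¬ 2 ∣ n ∧ ∃ π ρ σ : ℂ, π ≠ ρ ∧ π ≠ σ ∧ ρ ≠ σ ∧ QuadraticPoint F G F' G' π ∧
    QuadraticPoint F G F' G' ρ ∧ QuadraticPoint F G F' G' σ)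

/-- **Finiteness of the congruences between two families at integral parameters.** For all positive
integers `D`, `N` there are only finitely many rational numbers `t` with a denominator composed of primes
dividing `N` such that over some number field `L` of degree at most `D`, with enough cubic and quadratic
points for its degree, there are elliptic curves with invariants `j(t) = F(t) / G(t)` and
`j'(t) = F'(t) / G'(t)` which are `p`-congruent for some prime `p ≥ 5`. -/
theorem result (F G F' G' : ℚ[X]) (D N : ℕ) (hN : N ≠ 0) :
    {t : ℚ | (∀ q : ℕ, q.Prime → q ∣ t.den → q ∣ N) ∧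
      ∃ (L : Type) (_ : Field L) (_ : NumberField L) (p : ℕ) (A B A' B' : L),
        Module.finrank ℚ L ≤ D ∧ EnoughPoints F G F' G' (Module.finrank ℚ L) ∧
        p.Prime ∧ 5 ≤ p ∧ 4 * A ^ 3 + 27 * B ^ 2 ≠ 0 ∧ 4 * A' ^ 3 + 27 * B' ^ 2 ≠ 0 ∧
        G.eval t ≠ 0 ∧ G'.eval t ≠ 0 ∧
        invariant A B = ((F.eval t / G.eval t : ℚ) : L) ∧
        invariant A' B' = ((F'.eval t / G'.eval t : ℚ) : L) ∧
        Congruent p A B A' B'}.Finite := by
  have hinv : ∀ {K : Type} [Field K] (A B : K), Pool.Agent.Y673.Loc.jv A B = invariant A B := by
    intro K _ A B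
    unfold Pool.Agent.Y673.Loc.jv invariant
    ring
  have key : ∀ (P : ℚ[X]) (π : ℂ), aeval π P = (P.map (algebraMap ℚ ℂ)).eval π := by
    intro P π
    rw [eval_map_algebraMap]
  have h3 : ∀ π, CubicPoint F G F' G' π → Pool.Agent.K4H56.IF.Three F G F' G' π := by
    rintro π ⟨h1, h2, h3, h4, h5⟩
    exact ⟨h3, h4, by rwa [← key], by rwa [← key], h5⟩
  have h2 : ∀ π, QuadraticPoint F G F' G' π → Pool.Agent.K4H56.IF.Two F G F' G' π := by
    rintro π ⟨h1, h2, h3, h4, h5⟩
    exact ⟨h3, h4, by rwa [← key], by rwa [← key], h5⟩
  refine (Pool.Agent.K4H56.IF.main F G F' G' D N hN).subset ?_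
  rintro t ⟨ht, L, i1, i2, p, A, B, A', B', hD, hE, hp, h5, hd, hd', -, -, hj, hj', f, k1, k2, k3⟩
  refine ⟨ht, L, i1, i2, p, A, B, A', B', hD, ?_,
    ⟨hd, hd', by rw [hinv, hj], by rw [hinv, hj'], hp, h5, ⟨f, k1, k2, k3⟩⟩⟩
  rcases hE with ⟨n3, π, ρ, n, c1, c2⟩ | ⟨n6, π, ρ, n, c1, c2⟩ | ⟨n2, π, ρ, σ, m1, m2, m3, c1, c2, c3⟩
  · exact Or.inl ⟨n3, π, ρ, n, h3 π c1, h3 ρ c2⟩
  · exact Or.inr (Or.inl ⟨n6, π, ρ, n, h3 π c1, h2 ρ c2⟩)
  · exact Or.inr (Or.inr ⟨n2, π, ρ, σ, m1, m2, m3, h2 π c1, h2 ρ c2, h2 σ c3⟩)

end Pool.Agent.Results.MP_a60a76_nt.IntegralFamilies
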