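import Pool.Agent.K4H56.IG.Fin

/-!
# MP_a60a76_nt: curves with an integral invariant and all larger rational invariants up to `X ^ (3 - ε)`

For `j = a / b` in lowest terms let `H(j) = max (|a|, b)`.

**Theorem.** Let `D ≥ 1`, `P ≥ 13` and `κ < 3 P / (P + 2)`; for instance `P = 13` and `κ = 2.59`, or
`P = 19` (all the primes for which no pair of nonisogenous congruent curves is known) and `κ = 2.71`; the
bound for `κ` tends to `3`. There are `δ > 0` and `C` such that all but at most `C X ^ (1 - δ)` of the
`2 X + 1` integers `|a| ≤ X` have the following property. Let `K` be a number field of degree at most `D`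
and prime to `6` (for instance `ℚ`), `E` an elliptic curve over `K` with invariant `a`, and `E'` an
elliptic curve over `K` with a rational invariant `j'` of height at most `X ^ κ`. If `E` and `E'` are
`p`-congruent over `K` for some prime `p ≥ P` larger than `[K : ℚ]`, then `j' = a`: the curves are twists
of each other.

The integers have density zero among the rational numbers ordered by height, so this is not contained in
`DensityOneInvariants` and `MP_f5d5f4_nt.HeightGap`, whose exceptional sets have about `X ^ (2 - δ)`
elements; in `IntegralInvariants` both invariants are integers.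

Proof. Let `j' = a' / b' ≠ a` be congruent to `a`, `c = a - 1728`, `c' = a' - 1728 b'`. Let `A` be the
product of the primes `q ≥ 5` at which `a` has an order prime to `3`, and `C` the product of those at which
`c` has an odd order (without one exceptional prime, which is `p` and then at most a constant times
`log X`). By the local theory (library `JD`, `HG`): `A` divides `a'` and `C` divides `c'`, `c' = C Q` with
`Q = s w ^ 2` and `b' = T = s' z ^ p`, where `s` and `s'` are composed of primes of small sets (those
dividing `6 l`, respectively `6 z`). For all but `X ^ (1 - δ)` of the integers, `a = A a₁` and `c = C c₁`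
with `a₁`, `c₁` at most `X ^ ε`, and `|c| ≥ X ^ (1 - ε)`, so `|Q| ≤ X ^ (κ - 1 + ε)`. With `a' = A a₂` the
equations `A a₁ = C c₁ + 1728`, `A a₂ = C Q + 1728 T` give `A (a₂ - a₁ T) = C (Q - c₁ T)`. Since `A` and
`C` are coprime, `A` divides `Q - c₁ T`, which is not zero because `j' ≠ a`. So `a = A a₁` is determined
by `a₁`, `c₁`, `Q`, `T` up to the choice of a divisor, and there are at most
`X ^ ((κ - 1) / 2 + κ / P + ε)` such integers `a`; the exponent is smaller than `1`.
-/

set_option autoImplicit false

open WeierstrassCurve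

namespace Pool.Agent.Results.MP_a60a76_nt.IntegralGap

section
variable {K : Type} [Field K]

/-- The curve `y² = x³ + Ax + B` over the field `K`. -/
def curve (A B : K) : WeierstrassCurve K := ⟨0, 0, 0, A, B⟩

/-- Its `j`-invariant. -/
noncomputable def invariant (A B : K) : K := 1728 * (4 * A ^ 3) / (4 * A ^ 3 + 27 * B ^ 2)

open scoped Classical in
/-- The group of its points over the algebraic closure of `K`. -/
abbrev Points (A B : K) : Type := ((curve A B).baseChange (AlgebraicClosure K)).toAffine.Point

open scoped Classical in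
/-- The action of an automorphism `σ` of the algebraic closure on the points. -/
noncomputable def galois (A B : K) (σ : AlgebraicClosure K ≃ₐ[K] AlgebraicClosure K) :
    Points A B →+ Points A B :=
  WeierstrassCurve.Affine.Point.map (σ : AlgebraicClosure K →ₐ[K] AlgebraicClosure K)

open scoped Classical in
/-- The curves `y² = x³ + Ax + B` and `y² = x³ + A'x + B'` are `p`-congruent over `K`: some map between
the groups of points restricts to a bijective additive map between the groups of points killed by `p`
which commutes with the Galois group. -/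
def Congruent (p : ℕ) (A B A' B' : K) : Prop :=
  ∃ f : Points A B → Points A' B', (∀ P Q, p • P = 0 → p • Q = 0 → f (P + Q) = f P + f Q) ∧
    Set.BijOn f {P | p • P = 0} {Q | p • Q = 0} ∧
    ∀ (σ : AlgebraicClosure K ≃ₐ[K] AlgebraicClosure K) (P : Points A B), p • P = 0 →
      f (galois A B σ P) = galois A' B' σ (f P)

end

/-- The height of `j = a / b`, in lowest terms: the maximum of `|a|` and `b`. -/
def height (j : ℚ) : ℕ := max j.num.natAbs j.den

/-- The curves with invariant `a`, over number fields `K` of degree at most `D` and prime to `6`, are not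
congruent modulo a prime `p ≥ P` larger than `[K : ℚ]` to any curve with a rational invariant `j' ≠ a` of
height at most `y`. -/
def OnlyTwists (D P : ℕ) (y : ℝ) (a : ℤ) : Prop :=
  ∀ (K : Type) [Field K] [NumberField K] (p : ℕ) (A B A' B' : K) (j' : ℚ),
    Module.finrank ℚ K ≤ D → (Module.finrank ℚ K).Coprime 6 →
    p.Prime → P ≤ p → Module.finrank ℚ K < p →
    4 * A ^ 3 + 27 * B ^ 2 ≠ 0 → 4 * A' ^ 3 + 27 * B' ^ 2 ≠ 0 →
    invariant A B = (a : K) → invariant A' B' = (j' : K) → (height j' : ℝ) ≤ y →
    Congruent p A B A' B' → j' = a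

/-- **Gap for integral invariants.** If `P ≥ 13` and `κ < 3 P / (P + 2)` (for instance `P = 19` and
`κ = 2.71`), then for all but `C X ^ (1 - δ)` integers `|a| ≤ X` the elliptic curves with invariant `a`
have no `p`-congruence, `p ≥ P`, with curves with a rational invariant different from `a` and of height at
most `X ^ κ`. -/
theorem result (D P : ℕ) (κ : ℝ) (hP : 13 ≤ P) (hκ : κ < 3 * (P : ℝ) / (P + 2)) :
    ∃ δ : ℝ, 0 < δ ∧ ∃ C : ℝ, ∀ X : ℕ, 1 ≤ X →
      (({a : ℤ | |a| ≤ X ∧ ¬ OnlyTwists D P ((X : ℝ) ^ κ) a}.ncard : ℕ) : ℝ) ≤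
        C * (X : ℝ) ^ (1 - δ) := by
  have hinv : ∀ {K : Type} [Field K] (A B : K), Pool.Agent.Y673.Loc.jv A B = invariant A B := by
    intro K _ A B
    unfold Pool.Agent.Y673.Loc.jv invariant
    ring
  have hPr : (13 : ℝ) ≤ P := by exact_mod_cast hP
  have hP0 : (0 : ℝ) < P := by linarith
  have hP2 : (0 : ℝ) < P + 2 := by linarith
  have h12 : 1 / 2 + 1 / (P : ℝ) = (P + 2) / (2 * P) := by
    field_simp
  have hκ1 : max κ 1 * (1 / 2 + 1 / (P : ℝ)) < 3 / 2 := by
    have h1 : max κ 1 < 3 * (P : ℝ) / (P + 2) := by
      refine max_lt hκ ?_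
      rw [lt_div_iff₀ hP2]
      linarith
    rw [h12]
    calc max κ 1 * ((P + 2) / (2 * P)) < 3 * (P : ℝ) / (P + 2) * ((P + 2) / (2 * P)) :=
          mul_lt_mul_of_pos_right h1 (by positivity)
      _ = 3 / 2 := by
          field_simp
  obtain ⟨δ, hδ, C, h⟩ := Pool.Agent.K4H56.IG.gapI D P hP (le_max_right κ 1) hκ1
  refine ⟨δ, hδ, C, fun X hX => le_trans ?_ (h X hX)⟩
  have hX1 : (1 : ℝ) ≤ X := by exact_mod_cast hX
  have hfin : {a : ℤ | a.natAbs ≤ X}.Finite := by
    refine (Finset.finite_toSet (Finset.Icc (-(X : ℤ)) X)).subset fun a ha => ?_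
    rw [Finset.mem_coe, Finset.mem_Icc]
    have : a.natAbs ≤ X := ha
    omega
  refine Nat.cast_le.2 (Set.ncard_le_ncard ?_ (hfin.subset fun a ha => ha.1))
  rintro a ⟨ha, hF⟩
  refine ⟨by rw [Int.abs_eq_natAbs] at ha; exact_mod_cast ha, fun hIS => hF ?_⟩
  intro K _ _ p A B A' B' j' hD h6 hp hPp hn hd hd' hjj hjj' hH ⟨f, h1, h2, h3⟩
  refine hIS K _ _ p A B A' B' j' hD h6 hPp
    ⟨hd, hd', by rw [hinv, hjj]; simp, by rw [hinv, hjj'], hp, hP.trans hPp, hn, ⟨f, h1, h2, h3⟩⟩
    (le_trans hH (Real.rpow_le_rpow_of_exponent_le hX1 (le_max_left κ 1)))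

end Pool.Agent.Results.MP_a60a76_nt.IntegralGap
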