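import Pool.Agent.K4H56.II.Fin

/-!
# MP_a60a76_nt: curves with integral invariants, all primes `p ≥ 5`

For an integer `a` let `N(a)` be the product of the primes `q ≥ 5` for which `3` does not divide the order
of `a` at `q` or `a - 1728` has an odd order at `q`, and let `J_D` be the set of the integers `a` with
`N(a) > 290 D |a|`.

**Theorem.** (1) Let `E` and `E'` be elliptic curves over `ℚ`, or over a number field `K` of degree at most
`D` and prime to `6`, with integral rational invariants `a ∈ J_D` and `a'`, where `a' ∈ J_D` or
`|a'| ≤ |a|`. If `E` and `E'` are `p`-congruent for some prime `p ≥ 5` then `a = a'`: the curves are twists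
of each other. There is no condition on the sizes of `a`, `a'`, on the fields of definition of the twists,
on conductors, or on `p`.

(2) All but at most `700 D ^ (1 / 5) X ^ (4 / 5)` of the `2 X + 1` integers `|a| ≤ X` are in `J_D`.

For `p = 5, 7` infinitely many pairs of curves over `ℚ` which are `p`-congruent and not isogenous are
known; the conjecture concerns `p > 17`. The integral invariants are a set of density zero among the
rational invariants ordered by height, so that this is not contained in the result
`DensityOneInvariants`, which needs poles of the invariants and `p ≥ 13`.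

Proof. Let `q` be one of the primes in the product `N(a)`, `v` a place of `K` above `q` with a ramification
index prime to `6`. Both curves have potentially good reduction at `v`. The inertia group acts on the
reduction of `E` over a suitable extension through a cyclic group of order divisible by `3` or `4`, and if
`v` is not above `p` it acts on that of `E'` with the same kernel: an automorphism which fixes the points
of order `p` is trivial. For `v ∣ p`, `p > 144 [K : ℚ] + 1`, one compares the actions on the formal groups
or on the points of order `p` of the reductions (helper files `K4H56/JD/Loc1-Loc4`). So the order of `a'`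
at `q` is not divisible by `3`, or that of `a' - 1728` is odd, and `q ∣ a' - a`. If `a ≠ a'` the product of
the `q ≠ p` is at most `|a' - a| ≤ 2 max (|a|, |a'|)`, and `N(a) ≤ 290 [K : ℚ] max (|a|, |a'|)`. Finally `N(a)` is
at least the product of the primes `q ≥ 5` which divide `a` or `a - 1728` exactly once, and only few
integers have a large powerful part.
-/

set_option autoImplicit false

open WeierstrassCurve

namespace Pool.Agent.Results.MP_a60a76_nt.IntegralInvariants

section
variable {K : Type} [Field K]

/-- The curve `y² = x³ + Ax + B` over the field `K`. -/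
def curve (A B : K) : WeierstrassCurve K := ⟨0, 0, 0, A, B⟩

/-- Its `j`-invariant. -/
noncomputable def invariant (A B : K) : K := 1728 * (4 * A ^ 3) / (4 * A ^ 3 + 27 * B ^ 2)

open scoped Classical in
/-- The group of its points over the algebraic closure of `K`. -/
abbrev Points (A B : K) : Type := ((curve A B).baseChange (AlgebraicClosure K)).toAffine.Point

open scoped Classical in
/-- The action of an automorphism `σ` of the algebraic closure on the points. -/
noncomputable def galois (A B : K) (σ : AlgebraicClosure K ≃ₐ[K] AlgebraicClosure K) :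
    Points A B →+ Points A B :=
  WeierstrassCurve.Affine.Point.map (σ : AlgebraicClosure K →ₐ[K] AlgebraicClosure K)

open scoped Classical in
/-- The curves `y² = x³ + Ax + B` and `y² = x³ + A'x + B'` are `p`-congruent over `K`: some map between
the groups of points restricts to a bijective additive map between the groups of points killed by `p`
which commutes with the Galois group. -/
def Congruent (p : ℕ) (A B A' B' : K) : Prop :=
  ∃ f : Points A B → Points A' B', (∀ P Q, p • P = 0 → p • Q = 0 → f (P + Q) = f P + f Q) ∧
    Set.BijOn f {P | p • P = 0} {Q | p • Q = 0} ∧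
    ∀ (σ : AlgebraicClosure K ≃ₐ[K] AlgebraicClosure K) (P : Points A B), p • P = 0 →
      f (galois A B σ P) = galois A' B' σ (f P)

end

/-- The prime `q ≥ 5` is essential for the integer `a`: the order of `a` at `q` is not divisible by `3`,
or that of `a - 1728` is odd. -/
def Essential (a : ℤ) (q : ℕ) : Prop :=
  q.Prime ∧ 5 ≤ q ∧ (¬ 3 ∣ padicValInt q a ∨ ¬ 2 ∣ padicValInt q (a - 1728))

open scoped Classical in
/-- The product of the essential primes of `a`; all of them divide `a (a - 1728)`. -/
noncomputable def N (a : ℤ) : ℕ :=
  ∏ q ∈ (a * (a - 1728)).natAbs.primeFactors.filter (Essential a), q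

/-- The set `J_D`. -/
def J (D : ℕ) : Set ℤ := {a | 290 * D * a.natAbs < N a}

/-- **Frey-Mazur for integral invariants.** Elliptic curves `E`, `E'` over a number field `K` of degree
at most `D` and prime to `6`, with integral invariants `a ∈ J_D` and `a'`, where `a' ∈ J_D` or
`|a'| ≤ |a|`, which are `p`-congruent for a prime `p ≥ 5`, have the same invariant; and at most
`700 D ^ (1 / 5) X ^ (4 / 5)` integers `|a| ≤ X` are not in `J_D`. -/
theorem result :
    (∀ (D : ℕ) (K : Type) [Field K] [NumberField K] (p : ℕ) (A B A' B' : K) (a a' : ℤ),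
      Module.finrank ℚ K ≤ D → (Module.finrank ℚ K).Coprime 6 → p.Prime → 5 ≤ p →
      4 * A ^ 3 + 27 * B ^ 2 ≠ 0 → 4 * A' ^ 3 + 27 * B' ^ 2 ≠ 0 →
      invariant A B = (a : K) → invariant A' B' = (a' : K) →
      a ∈ J D → (a' ∈ J D ∨ |a'| ≤ |a|) → Congruent p A B A' B' → a = a') ∧
    ∀ D X : ℕ, 1 ≤ D → 1 ≤ X →
      (({a : ℤ | |a| ≤ X ∧ a ∉ J D}.ncard : ℕ) : ℝ) ≤
        700 * (D : ℝ) ^ (1 / 5 : ℝ) * (X : ℝ) ^ (4 / 5 : ℝ) := by
  have hinv : ∀ {K : Type} [Field K] (A B : K), Pool.Agent.Y673.Loc.jv A B = invariant A B := by
    intro K _ A B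
    unfold Pool.Agent.Y673.Loc.jv invariant
    ring
  refine ⟨?_, ?_⟩
  · intro D K _ _ p A B A' B' a a' hD h6 hp h5 hd hd' hj hj' hJ hJ' ⟨f, h1, h2, h3⟩
    have hP : Pool.Agent.K4H56.IF.Pr K p A B A' B' (a : ℚ) (a' : ℚ) :=
      ⟨hd, hd', by rw [hinv, hj]; simp, by rw [hinv, hj']; simp, hp, h5, ⟨f, h1, h2, h3⟩⟩
    have hle : ∀ b c : ℤ, |b| ≤ |c| → b.natAbs ≤ c.natAbs := by
      intro b c h
      rw [Int.abs_eq_natAbs, Int.abs_eq_natAbs] at h
      exact_mod_cast h
    rcases le_total |a'| |a| with h | h
    · exact Pool.Agent.K4H56.II.eq_of hP h6 hD hJ (hle _ _ h)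
    · rcases hJ' with hJ' | hJ'
      · exact (Pool.Agent.K4H56.II.eq_of hP.symm h6 hD hJ' (hle _ _ h)).symm
      · exact Pool.Agent.K4H56.II.eq_of hP h6 hD hJ (hle _ _ hJ')
  · intro D X hD hX
    have h := Pool.Agent.K4H56.II.count hD hX
    have e : {a : ℤ | |a| ≤ X ∧ a ∉ J D} =
        {a : ℤ | a.natAbs ≤ X ∧ ¬ 290 * D * a.natAbs < Pool.Agent.K4H56.II.NI a} := by
      ext a
      show (|a| ≤ (X : ℤ) ∧ ¬ 290 * D * a.natAbs < N a) ↔
        (a.natAbs ≤ X ∧ ¬ 290 * D * a.natAbs < Pool.Agent.K4H56.II.NI a)
      have h1 : |a| ≤ (X : ℤ) ↔ a.natAbs ≤ X := by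
        rw [Int.abs_eq_natAbs]
        exact_mod_cast Iff.rfl
      rw [h1]
      rfl
    rw [e]
    exact h

end Pool.Agent.Results.MP_a60a76_nt.IntegralInvariants
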